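import Pool.Agent.Helper18.UW.GoalsA

/-! Packet SELa: parity of iterated differences. -/

set_option autoImplicit false

namespace Pool.Agent.Helper56.UW

open Pool.Agent.Helper18.UW

theorem selaAux (c0 : ℝ) (hc0 : c0 = 1) (ε : ℝ) : ∀ (hs : List ℝ) (x : ℝ),
    (∀ l : List ℝ, l.Sublist hs → ∃ n : ℤ, |Real.sqrt (x + l.sum) - (2 * n + 1)| ≤ ε) →
    ∃ n : ℤ, |Df hs Real.sqrt x - (2 * n + (if hs.isEmpty then c0 else 0))| ≤ 2 ^ hs.length * ε
  | [], x, h => by
      obtain ⟨n, hn⟩ := h [] (List.Sublist.refl [])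
      refine ⟨n, ?_⟩
      simp only [List.sum_nil, add_zero] at hn
      simpa [Df, hc0] using hn
  | (a :: hs), x, h => by
      obtain ⟨n1, h1⟩ := selaAux c0 hc0 ε hs (x + a) (fun l hl => by
        obtain ⟨n, hn⟩ := h (a :: l) (hl.cons_cons a)
        refine ⟨n, ?_⟩
        have e : x + a + l.sum = x + (a :: l).sum := by rw [List.sum_cons]; ring
        rw [e]
        exact hn)
      obtain ⟨n2, h2⟩ := selaAux c0 hc0 ε hs x (fun l hl => h l (hl.cons a))
      refine ⟨n1 - n2, ?_⟩
      have e : Df (a :: hs) Real.sqrt x = Df hs Real.sqrt (x + a) - Df hs Real.sqrt x := rfl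
      rw [e]
      have e2 : ((a :: hs).isEmpty) = false := rfl
      rw [e2]
      set c : ℝ := (if hs.isEmpty then c0 else 0) with hc
      have e3 : Df hs Real.sqrt (x + a) - Df hs Real.sqrt x -
          (2 * ((n1 - n2 : ℤ) : ℝ) + (if false = true then c0 else 0)) =
          (Df hs Real.sqrt (x + a) - (2 * (n1 : ℝ) + c)) - (Df hs Real.sqrt x - (2 * (n2 : ℝ) + c)) := by
        push_cast
        ring
      rw [e3]
      have h3 := abs_sub (Df hs Real.sqrt (x + a) - (2 * (n1 : ℝ) + c))
        (Df hs Real.sqrt x - (2 * (n2 : ℝ) + c))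
      have e4 : (2 : ℝ) ^ (a :: hs).length * ε = 2 ^ hs.length * ε + 2 ^ hs.length * ε := by
        rw [List.length_cons, pow_succ]; ring
      rw [e4]
      linarith

theorem goalSELa : GoalSELa := by
  intro hs x ε hne h
  obtain ⟨n, hn⟩ := selaAux 1 rfl ε hs x h
  refine ⟨n, ?_⟩
  have e : hs.isEmpty = false := by
    cases hs with
    | nil => exact absurd rfl hne
    | cons a l => rfl
  rw [e] at hn
  simpa using hn

end Pool.Agent.Helper56.UW
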