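import Pool.Agent.Helper18.UW.GoalsZ

/-! Packet Z10at: starts and pending skips. -/

set_option autoImplicit false

namespace Pool.Agent.Helper56.UW

open Finset
open Pool.Agent.Helper18.EW Pool.Agent.Helper18.UW
open Pool.Agent.Helper43.Hw (T na va lz Play aa ac sc oo sk U Dd Sd Pn nx bb np two_T)
open Pool.Agent.Helper43.Gm (Pri)

theorem parB {μ R K b l Lg q : ℕ} (h : Par4 μ R K b l Lg q) :
    1 ≤ b ∧ 1 ≤ K ∧ b ≤ K ∧ K ≤ b * Lg ∧ 2 ^ 33 * (K * l) ≤ μ ∧ 1 ≤ μ := by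
  have hb1 := h.b1
  have hL1 := h.L1
  have hqL := h.qL
  have hK := h.hK
  have hb2 := h.b2
  have hl := h.l1
  have b1 : 1 ≤ b := by omega
  have h1 : b ≤ K := by
    rw [hK]
    exact Nat.le_mul_of_pos_right b (by omega)
  have h2 : 2 ^ 33 * (K * l) ≤ μ := by
    refine le_trans ?_ hb2
    rw [hK]
    calc 2 ^ 33 * (b * (q + 1) * l) = 2 ^ 33 * b * (q + 1) * l := by ring
      _ ≤ 2 ^ 33 * b * (q + 1) ^ 2 * l := by
          refine Nat.mul_le_mul_right l (Nat.mul_le_mul_left _ ?_)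
          nlinarith
  have h3 : 1 ≤ K * l := Nat.mul_pos (by omega) (by omega)
  refine ⟨b1, by omega, h1, ?_, h2, by omega⟩
  rw [hK]
  exact Nat.mul_le_mul_left b hqL

theorem part1 (h8 : GoalZ8) {μ R N K b l Lg q β s : ℕ} {W : ℤ} {L o k D S n κ x : ℕ → ℕ} {y : ℕ}
    (hz : Zon4 μ R N K b l Lg q β s W L o k D S n κ x y) :
    ∀ z, s ≤ z → z ≤ y → l * (κ y - κ z) ≤ 84 * (R - 1 - z) + 3 * K * l := by
  intro z hsz hzy
  obtain ⟨b1, K1, bK, KL, K33, μ1⟩ := parB hz.par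
  have hl := hz.par.l1
  have hR := hz.par.R1
  have hy2 := hz.y2
  rcases hzy.eq_or_lt with rfl | hlt
  · rw [Nat.sub_self, Nat.mul_zero]
    exact Nat.zero_le _
  have hJs := hz.ext.Js
  have hXμ : R - 1 - z ≤ μ := by omega
  have hnp := hz.hnp (R - 1 - z) hXμ
  have hih := hz.ih z hsz hlt
  have hoo : N - κ z ≤ β + o z + oo μ R κ x z := by
    have h1 : 2 ^ 14 * l * (N - κ z) ≤ 2 ^ 14 * l * (β + o z + oo μ R κ x z) := by omega
    exact Nat.le_of_mul_le_mul_left h1 (by positivity)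
  have h := h8 μ R N K b β s W L o k D S n κ x y z μ1 (by omega) hz.ext hz.play hz.ex hy2 hsz hzy hoo
  have hn := hz.ext.nK (R - 1 - z)
  have hw3 := hz.w3
  set X := R - 1 - z with hX
  set w := R - 1 - y with hw
  have hwX : w ≤ X := by omega
  have hw1 : 1 ≤ w := by omega
  set P := np μ R N κ x X with hP
  set Δ := κ y - κ z with hΔ
  have hT2 : 2 * T w = w * (w + 1) := two_T w
  have hTw : 0 < T w := by nlinarith
  -- everything in ℤ
  have hT2' : (2 : ℤ) * (T w : ℤ) = (w : ℤ) * ((w : ℤ) + 1) := by exact_mod_cast hT2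
  have hTw' : (0 : ℤ) < (T w : ℤ) := by exact_mod_cast hTw
  have hl' : (1 : ℤ) ≤ (l : ℤ) := by exact_mod_cast hl
  have hnp' : (l : ℤ) * (P : ℤ) ≤ 160 * (X : ℤ) + 3 * l := by exact_mod_cast hnp
  have hn' : (n X : ℤ) ≤ K := by exact_mod_cast hn
  have hbK' : (b : ℤ) ≤ K := by exact_mod_cast bK
  have hK1' : (1 : ℤ) ≤ K := by exact_mod_cast K1
  have hw1' : (1 : ℤ) ≤ (w : ℤ) := by exact_mod_cast hw1
  have hwX' : (w : ℤ) ≤ (X : ℤ) := by exact_mod_cast hwX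
  have hw3' : 2 ^ 14 * (l : ℤ) * |W| ≤ (w : ℤ) ^ 2 * ((b : ℤ) * l + w) := by
    push_cast at hw3
    exact hw3
  have hWabs : W ≤ |W| := le_abs_self W
  have s1 : (l : ℤ) * (2 * (T w : ℤ) * (Δ : ℤ)) ≤ l * ((T w : ℤ) * ((P : ℤ) + n X) + |W|) := by
    refine mul_le_mul_of_nonneg_left (le_trans h ?_) (by linarith)
    linarith
  have s2 : (l : ℤ) * ((T w : ℤ) * ((P : ℤ) + n X)) ≤ (T w : ℤ) * (160 * X + 3 * l + K * l) := by
    have e1 : (l : ℤ) * ((T w : ℤ) * ((P : ℤ) + n X)) = (T w : ℤ) * (l * P + n X * l) := by ring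
    rw [e1]
    refine mul_le_mul_of_nonneg_left ?_ hTw'.le
    have : (n X : ℤ) * l ≤ K * l := mul_le_mul_of_nonneg_right hn' (by linarith)
    linarith
  have s3 : 2 ^ 14 * ((l : ℤ) * |W|) ≤ (2 * (T w : ℤ)) * ((K : ℤ) * l + X) := by
    have e1 : 2 ^ 14 * ((l : ℤ) * |W|) = 2 ^ 14 * (l : ℤ) * |W| := by ring
    rw [e1]
    refine le_trans hw3' ?_
    rw [hT2']
    refine mul_le_mul ?_ ?_ (by positivity) (by positivity)
    · nlinarith
    · have : (b : ℤ) * l ≤ K * l := mul_le_mul_of_nonneg_right hbK' (by linarith)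
      linarith
  have s4 : (T w : ℤ) * (2 ^ 15 * ((l : ℤ) * Δ)) ≤
      (T w : ℤ) * (2 ^ 14 * (160 * X + 3 * l + K * l) + 2 * ((K : ℤ) * l + X)) := by
    have e1 : (T w : ℤ) * (2 ^ 15 * ((l : ℤ) * Δ)) = 2 ^ 14 * ((l : ℤ) * (2 * (T w : ℤ) * (Δ : ℤ))) := by
      ring
    rw [e1]
    calc 2 ^ 14 * ((l : ℤ) * (2 * (T w : ℤ) * (Δ : ℤ)))
        ≤ 2 ^ 14 * (l * ((T w : ℤ) * ((P : ℤ) + n X) + |W|)) :=
          mul_le_mul_of_nonneg_left s1 (by norm_num)
      _ = 2 ^ 14 * ((l : ℤ) * ((T w : ℤ) * ((P : ℤ) + n X))) + 2 ^ 14 * ((l : ℤ) * |W|) := by ring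
      _ ≤ 2 ^ 14 * ((T w : ℤ) * (160 * X + 3 * l + K * l)) + (2 * (T w : ℤ)) * ((K : ℤ) * l + X) :=
          add_le_add (mul_le_mul_of_nonneg_left s2 (by norm_num)) s3
      _ = _ := by ring
  have s5 := le_of_mul_le_mul_left s4 hTw'
  have hlK : (l : ℤ) ≤ K * l := by
    calc (l : ℤ) = 1 * l := by ring
      _ ≤ K * l := mul_le_mul_of_nonneg_right hK1' (by linarith)
  have hX0 : (0 : ℤ) ≤ X := by positivity
  have hl0 : (0 : ℤ) ≤ (K : ℤ) * l := by positivity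
  have s6 : (l : ℤ) * Δ ≤ 84 * X + 3 * (K * l) := by nlinarith
  have s7 : l * Δ ≤ 84 * X + 3 * (K * l) := by exact_mod_cast s6
  calc l * Δ ≤ 84 * X + 3 * (K * l) := s7
    _ = 84 * X + 3 * K * l := by ring

theorem goalZ10at (h8 : GoalZ8) (h9 : GoalZ9t) : GoalZ10at := by
  intro μ R N K b l Lg q β s W L o k D S n κ x y hz
  have hp1 := part1 h8 hz
  obtain ⟨b1, K1, bK, KL, K33, μ1⟩ := parB hz.par
  have hl := hz.par.l1
  have hR := hz.par.R1
  have hL := hz.par.hL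
  have hy2 := hz.y2
  have hJs := hz.ext.Js
  have hsy := hz.sy
  -- the second statement
  have hs := hp1 s le_rfl hsy
  have hRs : R - 1 - s ≤ μ := by omega
  have hs2 : l * (κ y - κ s) ≤ 84 * μ + 3 * K * l := by omega
  have hlt : κ y - κ s < 2 ^ Lg := by
    have h1 : l * (κ y - κ s) < l * 2 ^ Lg := by
      rw [Nat.mul_comm l (2 ^ Lg)]
      have h3 : 3 * K * l = 3 * (K * l) := by ring
      omega
    exact Nat.lt_of_mul_lt_mul_left h1
  have hq := h9 μ R N K b l Lg β s y W L o k D S n κ x μ1 (by omega) hl b1 K1 KL hz.ext hz.play hz.ex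
    hsy hy2 hz.pau hz.ih hp1 hlt
  set c := ((range y).filter (fun t => R - 1 - μ < t ∧ κ t < κ y ∧ 0 < x t ∧ 0 < U μ R x t ∧
    U μ R x t ≤ R - 1 - y)).card with hcdef
  have hp2 : l * c ≤ 84 * μ + 3 * K * l + 200 * 2 ^ 14 * l * (R - 1 - y) * Lg := by
    calc l * c ≤ l * ((κ y - κ s) + 200 * 2 ^ 14 * (R - 1 - y) * Lg) := Nat.mul_le_mul_left l hq
      _ = l * (κ y - κ s) + 200 * 2 ^ 14 * l * (R - 1 - y) * Lg := by ring
      _ ≤ (84 * μ + 3 * K * l) + 200 * 2 ^ 14 * l * (R - 1 - y) * Lg :=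
          Nat.add_le_add_right hs2 _
  refine ⟨hp1, hp2, ?_⟩
  set w := R - 1 - y with hw
  have hSd : Sd μ R κ x y ≤ w * (w + c) := by
    have e1 : Sd μ R κ x y = ∑ t ∈ ((range y).filter (fun t => κ t < κ y ∧ 0 < x t ∧
        U μ R x t ≤ R - 1 - y)).filter (fun t => 0 < U μ R x t), U μ R x t := by
      unfold Sd
      exact (Finset.sum_filter_of_ne fun t _ ht => Nat.pos_of_ne_zero ht).symm
    have e2 : Sd μ R κ x y ≤ (((range y).filter (fun t => κ t < κ y ∧ 0 < x t ∧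
        U μ R x t ≤ R - 1 - y)).filter (fun t => 0 < U μ R x t)).card * w := by
      rw [e1, ← smul_eq_mul]
      refine Finset.sum_le_card_nsmul _ _ _ fun t ht => ?_
      simp only [mem_filter] at ht
      exact ht.1.2.2.2
    have e3 : ((range y).filter (fun t => κ t < κ y ∧ 0 < x t ∧
        U μ R x t ≤ R - 1 - y)).filter (fun t => 0 < U μ R x t) ⊆
        Ioc (R - 1 - μ - w) (R - 1 - μ) ∪ (range y).filter (fun t => R - 1 - μ < t ∧ κ t < κ y ∧
          0 < x t ∧ 0 < U μ R x t ∧ U μ R x t ≤ R - 1 - y) := by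
      intro t ht
      simp only [mem_filter, mem_range, mem_union, mem_Ioc] at ht ⊢
      obtain ⟨⟨t1, t2, t3, t4⟩, t5⟩ := ht
      by_cases htJ : R - 1 - μ < t
      · right
        exact ⟨t1, htJ, t2, t3, t5, t4⟩
      · left
        unfold U at t4 t5
        omega
    have e4 := (Finset.card_le_card e3).trans (Finset.card_union_le _ _)
    rw [Nat.card_Ioc] at e4
    have e5 : R - 1 - μ - (R - 1 - μ - w) ≤ w := by omega
    have e6 : (((range y).filter (fun t => κ t < κ y ∧ 0 < x t ∧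
        U μ R x t ≤ R - 1 - y)).filter (fun t => 0 < U μ R x t)).card ≤ w + c := by omega
    calc Sd μ R κ x y ≤ _ := e2
      _ ≤ (w + c) * w := Nat.mul_le_mul_right w e6
      _ = w * (w + c) := Nat.mul_comm _ _
  calc l * Sd μ R κ x y ≤ l * (w * (w + c)) := Nat.mul_le_mul_left l hSd
    _ = w * (l * w + l * c) := by ring
    _ ≤ w * (l * w + (84 * μ + 3 * K * l + 200 * 2 ^ 14 * l * w * Lg)) :=
        Nat.mul_le_mul_left w (Nat.add_le_add_left hp2 _)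
    _ = w * (l * w + 84 * μ + 3 * K * l + 200 * 2 ^ 14 * l * w * Lg) := by ring

end Pool.Agent.Helper56.UW
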